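import Pool.Agent.K4W.StmtsM

/-! # K4W, row MTP: fixed primes -/

set_option autoImplicit false

namespace Pool.Agent.K4W.H98

theorem sg_pm (l : ℕ) (i : Fin (2 * l)) : sg l i = 1 ∨ sg l i = -1 := by
  unfold sg
  split_ifs
  · exact Or.inl rfl
  · exact Or.inr rfl

/-- the factor of the prime `q` -/
noncomputable def gq (l : ℕ) (p : Fin (2 * l) → ℕ) (c : ℕ → ℤ → ℝ) (q : ℕ)
    (m : Fin (2 * l) → ℤ) : ℝ :=
  if (q : ℤ) ∣ ∑ i ∈ Finset.univ.filter (fun i => p i = q), sg l i * m i ^ 2 then
    ∏ i ∈ Finset.univ.filter (fun i => p i = q), c q (m i) else 0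

theorem gq_nonneg {l : ℕ} {p : Fin (2 * l) → ℕ} {c : ℕ → ℤ → ℝ} (hc : ∀ q m, 0 ≤ c q m) (q : ℕ)
    (m : Fin (2 * l) → ℤ) : 0 ≤ gq l p c q m := by
  unfold gq
  split_ifs
  · exact Finset.prod_nonneg fun i _ => hc _ _
  · exact le_rfl

theorem sum_sub_two (I : Finset ℕ) (J : ℕ → ℕ) (n : ℕ) (h : ∀ q ∈ I, 2 ≤ J q)
    (hn : ∑ q ∈ I, J q = n) : ∑ q ∈ I, (J q - 2) + 2 * I.card = n := by
  rw [← hn, mul_comm 2 I.card, ← smul_eq_mul, ← Finset.sum_const, ← Finset.sum_add_distrib]
  refine Finset.sum_congr rfl fun q hq => ?_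
  have := h q hq
  omega

/-- **MTP** -/
theorem mtp (hMZD : MzdStmt) (hMFP : MfpStmt) (hMFC : MfcStmt) (hMFA : MfaStmt)
    (hMPR : MprStmt) : MtpStmt := by
  intro l r M P₀ p v c A₁ A₂ K hp hc hr
  obtain ⟨I, hI⟩ : ∃ I, I = Finset.univ.image p := ⟨_, rfl⟩
  have hmem : ∀ i, p i ∈ I := fun i => by
    rw [hI]
    exact Finset.mem_image_of_mem p (Finset.mem_univ i)
  -- the product over the fibres
  have h1 : ∑ m ∈ (Fintype.piFinset (fun i => Tm M (p i))).filter
        (fun m => (r : ℤ) ∣ ∑ i, sg l i * (v (p i) * m i ^ 2)), ∏ i, c (p i) (m i) ≤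
      ∑ m ∈ Fintype.piFinset (fun i => Tm M (p i)), ∏ q ∈ I, gq l p c q m := by
    have h2 : ∀ m ∈ (Fintype.piFinset (fun i => Tm M (p i))).filter
        (fun m => (r : ℤ) ∣ ∑ i, sg l i * (v (p i) * m i ^ 2)),
        ∏ i, c (p i) (m i) = ∏ q ∈ I, gq l p c q m := by
      intro m hm
      rw [Finset.mem_filter, Fintype.mem_piFinset] at hm
      obtain ⟨hm1, hm2⟩ := hm
      have h3 := hMZD (2 * l) r M P₀ p (sg l) m v (fun i => (hp i).2.1) (fun i => (hp i).2.2.1)
        (sg_pm l) (fun i => by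
          have h4 := hm1 i
          unfold Tm at h4
          rw [Finset.mem_filter, Finset.mem_Icc] at h4
          exact abs_le.2 h4.1) hr hm2
      rw [← Finset.prod_fiberwise_of_maps_to (s := Finset.univ) (t := I) (g := p)
        (fun i _ => hmem i) (fun i => c (p i) (m i))]
      refine Finset.prod_congr rfl fun q hq => ?_
      have hqp : q.Prime := by
        rw [hI, Finset.mem_image] at hq
        obtain ⟨i, _, rfl⟩ := hq
        exact (hp i).1
      unfold gq
      rw [if_pos (hMFP (2 * l) p (sg l) m q (fun i => (hp i).1) hqp h3)]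
      refine Finset.prod_congr rfl fun i hi => ?_
      rw [(Finset.mem_filter.1 hi).2]
    rw [Finset.sum_congr rfl h2]
    exact Finset.sum_le_sum_of_subset_of_nonneg (Finset.filter_subset _ _)
      (fun m _ _ => Finset.prod_nonneg fun q _ => gq_nonneg hc q m)
  have h2 : ∑ m ∈ Fintype.piFinset (fun i => Tm M (p i)), ∏ q ∈ I, gq l p c q m =
      ∏ q ∈ I, ∑ m ∈ Fintype.piFinset (fun i => if p i = q then Tm M (p i) else {0}),
        gq l p c q m := by
    rw [hI]
    refine hMPR (2 * l) p (fun i => Tm M (p i)) (gq l p c) ?_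
    intro q m m' hmm
    unfold gq
    have e1 : ∑ i ∈ Finset.univ.filter (fun i => p i = q), sg l i * m i ^ 2 =
        ∑ i ∈ Finset.univ.filter (fun i => p i = q), sg l i * m' i ^ 2 := by
      refine Finset.sum_congr rfl fun i hi => ?_
      rw [hmm i (Finset.mem_filter.1 hi).2]
    have e2 : ∏ i ∈ Finset.univ.filter (fun i => p i = q), c q (m i) =
        ∏ i ∈ Finset.univ.filter (fun i => p i = q), c q (m' i) := by
      refine Finset.prod_congr rfl fun i hi => ?_
      rw [hmm i (Finset.mem_filter.1 hi).2]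
    rw [e1, e2]
  have h3 : ∀ q, Fintype.piFinset (fun i => if p i = q then Tm M (p i) else {0}) =
      Fintype.piFinset (fun i => if i ∈ Finset.univ.filter (fun i => p i = q) then Tm M q
        else ({0} : Finset ℤ)) := by
    intro q
    congr 1
    funext i
    by_cases h : p i = q
    · rw [if_pos h, if_pos (Finset.mem_filter.2 ⟨Finset.mem_univ i, h⟩), h]
    · have h4 : i ∉ Finset.univ.filter (fun i => p i = q) :=
        fun h4 => h (Finset.mem_filter.1 h4).2
      rw [if_neg h, if_neg h4]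
  refine h1.trans (h2.le.trans ?_)
  have hdat : ∀ q ∈ I, ∃ i, p i = q := by
    intro q hq
    rw [hI, Finset.mem_image] at hq
    obtain ⟨i, _, h4⟩ := hq
    exact ⟨i, h4⟩
  split_ifs with hall
  · -- all fibres have at least two elements
    have h4 : ∀ q ∈ I, 2 ≤ (Finset.univ.filter (fun i => p i = q)).card := by
      intro q hq
      obtain ⟨i, rfl⟩ := hdat q hq
      obtain ⟨k, hki, hk⟩ := hall i
      have h5 : 1 < (Finset.univ.filter (fun j => p j = p i)).card := by
        rw [Finset.one_lt_card]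
        exact ⟨k, Finset.mem_filter.2 ⟨Finset.mem_univ k, hk⟩, i,
          Finset.mem_filter.2 ⟨Finset.mem_univ i, rfl⟩, hki⟩
      exact h5
    have h5 : ∏ q ∈ I, ∑ m ∈ Fintype.piFinset (fun i => if p i = q then Tm M (p i) else {0}),
        gq l p c q m ≤
        ∏ q ∈ I, (A₁ ^ ((Finset.univ.filter (fun i => p i = q)).card - 2) * (A₂ * K)) := by
      refine Finset.prod_le_prod (fun q _ => Finset.sum_nonneg fun m _ => gq_nonneg hc q m) ?_
      intro q hq
      obtain ⟨i, hi⟩ := hdat q hq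
      obtain ⟨d1, d2, d3, d4, d5, d6⟩ := hp i
      rw [hi] at d1 d4 d5 d6
      rw [h3 q]
      exact hMFC (2 * l) M q (Finset.univ.filter (fun i => p i = q)) (sg l) (c q) A₁ A₂ K d1
        (sg_pm l) (hc q) d4 d5 d6 (h4 q hq)
    have h6 : ∑ q ∈ I, (Finset.univ.filter (fun i => p i = q)).card = 2 * l := by
      rw [← Finset.card_eq_sum_card_fiberwise (fun i _ => hmem i), Finset.card_univ,
        Fintype.card_fin]
    have h7 : ∑ q ∈ I, ((Finset.univ.filter (fun i => p i = q)).card - 2) + 2 * I.card = 2 * l :=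
      sum_sub_two I (fun q => (Finset.univ.filter (fun i => p i = q)).card) (2 * l) h4 h6
    refine h5.trans (le_of_eq ?_)
    rw [Finset.prod_mul_distrib, Finset.prod_const, Finset.prod_pow_eq_pow_sum, ← pow_mul, ← hI,
      mul_comm]
    congr 2
    omega
  · -- a fibre with one element
    push Not at hall
    obtain ⟨i, hi⟩ := hall
    refine le_of_eq (Finset.prod_eq_zero (hmem i) ?_)
    rw [h3 (p i)]
    refine hMFA (2 * l) M (p i) (Finset.univ.filter (fun j => p j = p i)) (sg l) (c (p i))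
      (hp i).1 (sg_pm l) ?_
    rw [Finset.card_eq_one]
    refine ⟨i, ?_⟩
    ext k
    rw [Finset.mem_filter, Finset.mem_singleton]
    constructor
    · rintro ⟨_, hk⟩
      by_contra hne
      exact hi k hne hk
    · rintro rfl
      exact ⟨Finset.mem_univ _, rfl⟩

end Pool.Agent.K4W.H98
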