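import Pool.Agent.K4W.StmtsP

/-! # K4W, row PER: sums of periodic functions over a complete system of residues -/

set_option autoImplicit false

namespace Pool.Agent.K4W.H98

theorem sum_zmod (r : ℕ) [NeZero r] (g : ZMod r → ℂ) :
    ∑ c ∈ Finset.range r, g (c : ZMod r) = ∑ z : ZMod r, g z := by
  refine Finset.sum_nbij' (fun c => (c : ZMod r)) (fun z => z.val) ?_ ?_ ?_ ?_ ?_
  · intro c _
    exact Finset.mem_univ _
  · intro z _
    exact Finset.mem_range.2 (ZMod.val_lt z)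
  · intro c hc
    exact ZMod.val_natCast_of_lt (Finset.mem_range.1 hc)
  · intro z _
    exact ZMod.natCast_zmod_val z
  · intro c _
    rfl

/-- Row PER. -/
theorem per : PerStmt := by
  intro r hr f hf
  haveI : NeZero r := ⟨hr.ne'⟩
  obtain ⟨g, hg⟩ : ∃ g : ZMod r → ℂ, ∀ x : ℤ, f x = g (x : ZMod r) := by
    refine ⟨fun z => f (z.val : ℤ), fun x => ?_⟩
    have h1 : Function.Periodic f (r : ℤ) := hf
    have h2 := h1.int_mul (x / (r : ℤ)) (x % (r : ℤ))
    have h3 : (((x : ZMod r).val : ℕ) : ℤ) = x % (r : ℤ) := ZMod.val_intCast x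
    change f x = f (((x : ZMod r).val : ℕ) : ℤ)
    rw [h3, ← h2]
    congr 1
    have h4 := Int.emod_add_mul_ediv x (r : ℤ)
    rw [Int.cast_id]
    linarith [mul_comm (r : ℤ) (x / (r : ℤ))]
  have h0 : ∑ c ∈ Finset.range r, f (c : ℤ) = ∑ z : ZMod r, g z := by
    rw [← sum_zmod]
    refine Finset.sum_congr rfl fun c _ => ?_
    rw [hg, Int.cast_natCast]
  refine ⟨fun x0 => ?_, fun u hu => ?_⟩
  · rw [h0, ← Equiv.sum_comp (Equiv.addRight (x0 : ZMod r)) g, ← sum_zmod]
    refine Finset.sum_congr rfl fun c _ => ?_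
    rw [hg, Int.cast_add, Int.cast_natCast]
    rfl
  · have hu' : IsUnit (u : ZMod r) := (ZMod.coe_int_isUnit_iff_isCoprime u r).2 hu.symm
    obtain ⟨v, hv⟩ := hu'
    rw [h0, ← Equiv.sum_comp (Units.mulLeft v) g, ← sum_zmod]
    refine Finset.sum_congr rfl fun c _ => ?_
    rw [hg, Int.cast_mul, Int.cast_natCast, ← hv]
    rfl

end Pool.Agent.K4W.H98
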